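import Pool.Agent.N704.EZ.DifCore

/-!
# Iterated differences of binomial coefficients, with an error term
-/

set_option autoImplicit false
set_option linter.unusedVariables false

namespace Pool.Agent.U954.AG

open Finset

/-- binomial coefficients away from the centre -/
theorem choose_tail (m j : ℕ) (hm : 0 < m) :
    (m.choose j : ℝ) ≤ 2 ^ m * Real.exp (-((2 * (j : ℝ) - m) ^ 2 / (2 * m))) := by
  rcases lt_or_ge m j with h | h
  · rw [Nat.choose_eq_zero_of_lt h]
    push_cast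
    positivity
  have hm0 : (0 : ℝ) < m := by exact_mod_cast hm
  obtain ⟨l, hl⟩ : ∃ l : ℝ, l = (2 * (j : ℝ) - m) / m := ⟨_, rfl⟩
  have h1 : (m.choose j : ℝ) * Real.exp (l * (2 * j - m)) ≤
      (Real.exp l + Real.exp (-l)) ^ m := by
    rw [add_pow]
    have h2 : Real.exp l ^ j * Real.exp (-l) ^ (m - j) * (m.choose j : ℝ) ≤
        ∑ i ∈ range (m + 1), Real.exp l ^ i * Real.exp (-l) ^ (m - i) * (m.choose i : ℝ) := by
      refine single_le_sum (f := fun i => Real.exp l ^ i * Real.exp (-l) ^ (m - i) *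
        (m.choose i : ℝ)) (fun i _ => by positivity) (mem_range.mpr (by omega))
    refine le_trans (le_of_eq ?_) h2
    rw [← Real.exp_nat_mul, ← Real.exp_nat_mul, ← Real.exp_add, mul_comm, Nat.cast_sub h]
    congr 2
    ring
  have h3 : Real.exp l + Real.exp (-l) ≤ 2 * Real.exp (l ^ 2 / 2) := by
    have := Real.cosh_le_exp_half_sq l
    rw [Real.cosh_eq] at this
    linarith
  have h4 : (Real.exp l + Real.exp (-l)) ^ m ≤ 2 ^ m * Real.exp (m * (l ^ 2 / 2)) := by
    calc (Real.exp l + Real.exp (-l)) ^ m ≤ (2 * Real.exp (l ^ 2 / 2)) ^ m :=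
          pow_le_pow_left₀ (by positivity) h3 m
      _ = _ := by rw [mul_pow, ← Real.exp_nat_mul]
  have h5 : (m.choose j : ℝ) ≤ 2 ^ m * Real.exp (m * (l ^ 2 / 2)) *
      Real.exp (-(l * (2 * j - m))) := by
    have h6 : (m.choose j : ℝ) = (m.choose j : ℝ) * Real.exp (l * (2 * j - m)) *
        Real.exp (-(l * (2 * j - m))) := by
      rw [mul_assoc, ← Real.exp_add, add_neg_cancel, Real.exp_zero, mul_one]
    rw [h6]
    exact mul_le_mul_of_nonneg_right (h1.trans h4) (Real.exp_pos _).le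
  refine h5.trans (le_of_eq ?_)
  rw [mul_assoc, ← Real.exp_add]
  congr 2
  rw [hl]
  field_simp
  ring

/-- the weights of the `r`-th difference at `a` -/
def dl (r a : ℕ) (v : ℕ) : ℝ :=
  ∑ i ∈ range (r + 1), (-1 : ℝ) ^ i * (r.choose i : ℝ) * (if v = a + i then 1 else 0)

theorem sum_one (m u a : ℕ) :
    ∑ j ∈ range (m + 1), (m.choose j : ℝ) * (if u + j = a then (1 : ℝ) else 0) =
      if u ≤ a then (m.choose (a - u) : ℝ) else 0 := by
  split_ifs with h
  · by_cases h1 : a - u ≤ m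
    · rw [sum_eq_single (a - u)]
      · rw [if_pos (by omega), mul_one]
      · intro j _ hj
        rw [if_neg (by omega), mul_zero]
      · intro hc
        exact absurd (mem_range.mpr (by omega)) hc
    · rw [Nat.choose_eq_zero_of_lt (by omega)]
      push_cast
      refine sum_eq_zero fun j hj => ?_
      rw [mem_range] at hj
      rw [if_neg (by omega), mul_zero]
  · refine sum_eq_zero fun j hj => ?_
    rw [if_neg (by omega), mul_zero]

theorem sum_dl (r m u a : ℕ) :
    ∑ j ∈ range (m + 1), (m.choose j : ℝ) * dl r a (u + j) =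
      ∑ i ∈ range (r + 1), (-1 : ℝ) ^ i * (r.choose i : ℝ) *
        (if u ≤ a + i then (m.choose (a + i - u) : ℝ) else 0) := by
  unfold dl
  simp_rw [mul_sum]
  rw [sum_comm]
  refine sum_congr rfl fun i _ => ?_
  rw [← sum_one m u (a + i), mul_sum]
  refine sum_congr rfl fun j _ => ?_
  ring

theorem alt_le (r : ℕ) (g : ℕ → ℝ) (M : ℝ) (hg : ∀ i, i ≤ r → |g i| ≤ M) :
    |∑ i ∈ range (r + 1), (-1 : ℝ) ^ i * (r.choose i : ℝ) * g i| ≤ 2 ^ r * M := by
  refine (abs_sum_le_sum_abs _ _).trans ?_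
  have h1 : ∀ i ∈ range (r + 1), |(-1 : ℝ) ^ i * (r.choose i : ℝ) * g i| ≤
      (r.choose i : ℝ) * M := by
    intro i hi
    rw [mem_range] at hi
    rw [abs_mul, abs_mul, abs_pow, abs_neg, abs_one, one_pow, one_mul, Nat.abs_cast]
    exact mul_le_mul_of_nonneg_left (hg i (by omega)) (Nat.cast_nonneg _)
  refine (sum_le_sum h1).trans (le_of_eq ?_)
  rw [← sum_mul]
  congr 1
  have := Nat.sum_range_choose r
  exact_mod_cast this

/-- the differences of the binomial coefficients are small compared with the coefficients -/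
theorem bin_cmp (r : ℕ) : ∃ A C : ℝ, 0 < A ∧ 0 < C ∧ ∀ (m u a : ℕ) (ε : ℝ), 0 < ε → ε ≤ 1 →
    |∑ j ∈ range (m + 1), (m.choose j : ℝ) * dl r a (u + j)| ≤
      C * (ε ^ r * ∑ j ∈ range (m + 1), (m.choose j : ℝ) * (if u + j = a then (1 : ℝ) else 0)) +
        C * Real.exp (-(ε ^ 2 * m / A)) * 2 ^ m := by
  obtain ⟨C0, hC0, hd⟩ := Pool.Agent.N704.EZ.dif_core r
  obtain ⟨B, hB⟩ : ∃ B : ℝ, B = 64 * ((r : ℝ) + 1) := ⟨_, rfl⟩
  have hr0 : (0 : ℝ) ≤ r := Nat.cast_nonneg r
  have hB64 : 64 ≤ B := by rw [hB]; linarith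
  refine ⟨512, C0 + 2 ^ r * Real.exp (B / 512), by norm_num, by positivity,
    fun m u a ε hε hε1 => ?_⟩
  have hm0 : (0 : ℝ) ≤ m := Nat.cast_nonneg m
  rw [sum_dl, sum_one]
  have hpos : (0 : ℝ) ≤ if u ≤ a then (m.choose (a - u) : ℝ) else 0 := by
    split_ifs
    · exact Nat.cast_nonneg _
    · exact le_rfl
  obtain ⟨X, hX⟩ : ∃ X : ℝ, X = if u ≤ a then (m.choose (a - u) : ℝ) else 0 := ⟨_, rfl⟩
  rw [← hX] at hpos ⊢
  have hE1 : 1 ≤ Real.exp (B / 512) := Real.one_le_exp (by positivity)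
  have hfin1 : ∀ Y : ℝ, Y ≤ 2 ^ r * Real.exp (B / 512) * Real.exp (-(ε ^ 2 * m / 512)) * 2 ^ m →
      Y ≤ (C0 + 2 ^ r * Real.exp (B / 512)) * (ε ^ r * X) +
        (C0 + 2 ^ r * Real.exp (B / 512)) * Real.exp (-(ε ^ 2 * m / 512)) * 2 ^ m := by
    intro Y hY
    have h1 : 0 ≤ (C0 + 2 ^ r * Real.exp (B / 512)) * (ε ^ r * X) := by positivity
    have h2 : 0 ≤ C0 * Real.exp (-(ε ^ 2 * m / 512)) * 2 ^ m := by positivity
    have e : (C0 + 2 ^ r * Real.exp (B / 512)) * Real.exp (-(ε ^ 2 * m / 512)) * 2 ^ m =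
        C0 * Real.exp (-(ε ^ 2 * m / 512)) * 2 ^ m +
        2 ^ r * Real.exp (B / 512) * Real.exp (-(ε ^ 2 * m / 512)) * 2 ^ m := by ring
    rw [e]
    linarith
  -- every term is at most `2 ^ m`
  have hall : ∀ i : ℕ, |(if u ≤ a + i then (m.choose (a + i - u) : ℝ) else 0)| ≤ 2 ^ m := by
    intro i
    split_ifs
    · rw [Nat.abs_cast]
      exact_mod_cast Nat.choose_le_two_pow m (a + i - u)
    · rw [abs_zero]
      positivity
  by_cases hs : ε ^ 2 * m < B
  · refine hfin1 _ ((alt_le r _ (2 ^ m) fun i _ => hall i).trans ?_)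
    have h1 : 1 ≤ Real.exp (B / 512) * Real.exp (-(ε ^ 2 * m / 512)) := by
      rw [← Real.exp_add]
      exact Real.one_le_exp (by linarith)
    calc (2 : ℝ) ^ r * 2 ^ m = 2 ^ r * 1 * 2 ^ m := by ring
      _ ≤ 2 ^ r * (Real.exp (B / 512) * Real.exp (-(ε ^ 2 * m / 512))) * 2 ^ m := by gcongr
      _ = _ := by ring
  push Not at hs
  have hεm : ε ^ 2 * m ≤ ε * m := by
    have : ε ^ 2 ≤ ε := by
      rw [pow_two]
      exact mul_le_of_le_one_left hε.le hε1
    exact mul_le_mul_of_nonneg_right this hm0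
  have hεm' : B ≤ ε * m := hs.trans hεm
  have hmB : B ≤ m := hεm'.trans (mul_le_of_le_one_left hm0 hε1)
  have hmpos : 0 < m := by
    have : (0 : ℝ) < m := by linarith
    exact_mod_cast this
  by_cases hcen : u ≤ a ∧ |2 * ((a : ℝ) - u) - m| ≤ ε * m / 8
  · obtain ⟨h1, h2⟩ := hcen
    obtain ⟨k, hk⟩ : ∃ k : ℕ, k = a - u := ⟨_, rfl⟩
    have hkr : (k : ℝ) = (a : ℝ) - u := by rw [hk, Nat.cast_sub h1]
    rw [← hkr] at h2
    obtain ⟨h3, h4⟩ := abs_le.mp h2
    have hεm8 : ε * m / 8 ≤ m / 8 := by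
      have : ε * m ≤ 1 * m := mul_le_mul_of_nonneg_right hε1 hm0
      linarith
    have hk4 : (m : ℝ) / 4 ≤ k := by linarith
    have hkm : k ≤ m := by
      have : (k : ℝ) ≤ m := by linarith
      exact_mod_cast this
    have h5 := hd m k 1 ε le_rfl hε hε1 hkm (by
      have : ε ^ 2 * (m / 4) ≤ ε ^ 2 * k := mul_le_mul_of_nonneg_left hk4 (by positivity)
      linarith) (by
      have hk1 : (0 : ℝ) < (k : ℝ) + 1 := by linarith
      rw [div_sub_one hk1.ne', abs_div, abs_of_pos hk1, div_le_iff₀ hk1, mul_one]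
      have h6 : ε * (m / 4) ≤ ε * (k + 1) := mul_le_mul_of_nonneg_left (by linarith) hε.le
      rw [abs_le]
      constructor <;> linarith)
    have e1 : ∑ i ∈ range (r + 1), (-1 : ℝ) ^ i * (r.choose i : ℝ) *
        (if u ≤ a + i then (m.choose (a + i - u) : ℝ) else 0) =
        ∑ i ∈ range (r + 1), (-1 : ℝ) ^ i * (r.choose i : ℝ) *
          ((m.choose (k + i) : ℝ) / 1 ^ i) := by
      refine sum_congr rfl fun i _ => ?_
      rw [if_pos (by omega), one_pow, div_one, hk, show a + i - u = a - u + i by omega]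
    rw [e1]
    have hX' : X = (m.choose k : ℝ) := by rw [hX, if_pos h1, hk]
    rw [← hX'] at h5
    refine h5.trans ?_
    have h6 : 0 ≤ 2 ^ r * Real.exp (B / 512) * (ε ^ r * X) := by positivity
    have h7 : 0 ≤ (C0 + 2 ^ r * Real.exp (B / 512)) * Real.exp (-(ε ^ 2 * m / 512)) * 2 ^ m := by
      positivity
    have e2 : (C0 + 2 ^ r * Real.exp (B / 512)) * (ε ^ r * X) =
        C0 * ε ^ r * X + 2 ^ r * Real.exp (B / 512) * (ε ^ r * X) := by ring
    rw [e2]
    linarith
  · -- the terms are all in the tail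
    refine hfin1 _ ((alt_le r _ (Real.exp (-(ε ^ 2 * m / 512)) * 2 ^ m) fun i hi => ?_).trans ?_)
    · split_ifs with h1
      · rw [Nat.abs_cast]
        refine (choose_tail m (a + i - u) hmpos).trans ?_
        rw [mul_comm]
        refine mul_le_mul_of_nonneg_right (Real.exp_le_exp.mpr (neg_le_neg ?_)) (by positivity)
        have hir : (i : ℝ) ≤ r := by exact_mod_cast hi
        have hi0 : (0 : ℝ) ≤ i := Nat.cast_nonneg i
        have hc : ((a + i - u : ℕ) : ℝ) = (a : ℝ) + i - u := by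
          rw [Nat.cast_sub h1]
          push_cast
          ring
        have hc0 : (0 : ℝ) ≤ ((a + i - u : ℕ) : ℝ) := Nat.cast_nonneg _
        have h6 : (ε * m / 16) ≤ |2 * ((a + i - u : ℕ) : ℝ) - m| := by
          rw [hc] at hc0 ⊢
          by_cases h2 : u ≤ a
          · have h3 : ε * m / 8 < |2 * ((a : ℝ) - u) - m| := by
              by_contra hcon
              exact hcen ⟨h2, not_lt.mp hcon⟩
            have h4 : |2 * ((a : ℝ) - u) - m| ≤ |2 * ((a : ℝ) + i - u) - m| + 2 * i := by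
              have e : 2 * ((a : ℝ) - u) - m = (2 * ((a : ℝ) + i - u) - m) + (-(2 * i)) := by ring
              rw [e]
              refine (abs_add_le _ _).trans (add_le_add le_rfl ?_)
              rw [abs_neg, abs_of_nonneg (by positivity)]
            rw [hB] at hεm'
            linarith
          · have h3 : (a : ℝ) + 1 ≤ u := by
              have : a + 1 ≤ u := by omega
              exact_mod_cast this
            rw [abs_of_nonpos (by
              rw [hB] at hmB
              linarith)]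
            have : ε * m ≤ 1 * m := mul_le_mul_of_nonneg_right hε1 hm0
            rw [hB] at hmB
            linarith
        have h7 : (ε * m / 16) ^ 2 ≤ (2 * ((a + i - u : ℕ) : ℝ) - m) ^ 2 := by
          rw [← sq_abs (2 * ((a + i - u : ℕ) : ℝ) - m)]
          exact pow_le_pow_left₀ (by positivity) h6 2
        have hmp : (0 : ℝ) < m := by exact_mod_cast hmpos
        rw [le_div_iff₀ (by positivity)]
        refine le_trans (le_of_eq ?_) h7
        ring
      · rw [abs_zero]
        positivity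
    · have h8 : 0 ≤ 2 ^ r * (Real.exp (-(ε ^ 2 * m / 512)) * 2 ^ m) := by positivity
      calc (2 : ℝ) ^ r * (Real.exp (-(ε ^ 2 * m / 512)) * 2 ^ m)
          = 1 * (2 ^ r * (Real.exp (-(ε ^ 2 * m / 512)) * 2 ^ m)) := by ring
        _ ≤ Real.exp (B / 512) * (2 ^ r * (Real.exp (-(ε ^ 2 * m / 512)) * 2 ^ m)) :=
            mul_le_mul_of_nonneg_right hE1 h8
        _ = _ := by ring

end Pool.Agent.U954.AG
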