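import Pool.Agent.N949.AL.Main

/-!
# Sums over classes of systems of switches: comparison
-/

set_option autoImplicit false
set_option linter.unusedVariables false

namespace Pool.Agent.U954.AG

open Finset Pool.Agent.N949.AO
open scoped Classical

section

variable {α κ : Type} {K : ℕ → Finset α} {s : ℕ} {Sl Oc : α → Finset κ} {on off : α → κ → α}

theorem class_cmp (hTS : TS K s Sl Oc on off) (len : α → ℕ) (hlen : ∀ n, ∀ w ∈ K n, len w = n)
    {N : ℕ} (hK : ∀ n, N ≤ n → K n = ∅) {F : α → ℝ} (hF : Inv K Sl Oc on F) {x : ℝ}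
    (hx : 0 < x) (ψ χ β : ℕ → ℝ)
    (hβ : ∀ n u : ℕ, |∑ j ∈ range (n + 1), (n.choose j : ℝ) * (x ^ s) ^ j * ψ (u + s * j)| ≤
      ∑ j ∈ range (n + 1), (n.choose j : ℝ) * (x ^ s) ^ j * χ (u + s * j) +
      β n * (1 + x ^ s) ^ n) :
    |∑ m ∈ range N, x ^ m * ∑ w ∈ K m, F w * ψ m| ≤
      ∑ m ∈ range N, x ^ m * ∑ w ∈ K m, |F w| * χ m +
      ∑ m ∈ range N, x ^ m * ∑ w ∈ K m, |F w| * β (Sl w).card := by
  have e1 := flat len hlen N x (fun m w => F w * ψ m)
  have e2 := flat len hlen N x (fun _ w => |F w| * β (Sl w).card)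
  have e3 := flat len hlen N x (fun m w => |F w| * χ m)
  rw [e1, e2, e3]
  obtain ⟨X, hX⟩ : ∃ X, X = (range N).biUnion K := ⟨_, rfl⟩
  rw [← hX]
  obtain ⟨key, hkey⟩ : ∃ key : α → ℝ × Finset κ × ℕ,
    key = fun w => (F w, Sl w, len w - s * (Oc w).card) := ⟨_, rfl⟩
  have hmaps : ∀ w ∈ X, key w ∈ X.image key := fun w hw => mem_image_of_mem _ hw
  rw [← sum_fiberwise_of_maps_to hmaps, ← sum_fiberwise_of_maps_to hmaps,
    ← sum_fiberwise_of_maps_to hmaps, ← sum_add_distrib]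
  refine (abs_sum_le_sum_abs _ _).trans (sum_le_sum fun c _ => ?_)
  obtain ⟨v, E, u⟩ := c
  have hfil : X.filter (fun w => key w = (v, E, u)) =
      X.filter (fun w => F w = v ∧ Sl w = E ∧ len w - s * (Oc w).card = u) := by
    refine filter_congr fun w _ => ?_
    rw [hkey]
    simp only [Prod.mk.injEq]
  rw [hfil]
  have f1 := fiber hTS len hlen hK hF x ψ v E u
  have f2 := fiber hTS len hlen hK hF x (fun _ => 1) v E u
  have f3 := fiber hTS len hlen hK hF x χ v E u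
  rw [← hX] at f1 f2 f3
  have g1 : ∑ w ∈ X.filter (fun w => F w = v ∧ Sl w = E ∧ len w - s * (Oc w).card = u),
      x ^ len w * (F w * ψ (len w)) = v * ∑ w ∈ X.filter
        (fun w => F w = v ∧ Sl w = E ∧ len w - s * (Oc w).card = u), x ^ len w * ψ (len w) := by
    rw [mul_sum]
    refine sum_congr rfl fun w hw => ?_
    rw [(mem_filter.1 hw).2.1]
    ring
  have g4 : ∑ w ∈ X.filter (fun w => F w = v ∧ Sl w = E ∧ len w - s * (Oc w).card = u),
      x ^ len w * (|F w| * χ (len w)) = |v| * ∑ w ∈ X.filter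
        (fun w => F w = v ∧ Sl w = E ∧ len w - s * (Oc w).card = u), x ^ len w * χ (len w) := by
    rw [mul_sum]
    refine sum_congr rfl fun w hw => ?_
    rw [(mem_filter.1 hw).2.1]
    ring
  have g2 : ∑ w ∈ X.filter (fun w => F w = v ∧ Sl w = E ∧ len w - s * (Oc w).card = u),
      x ^ len w * (|F w| * β (Sl w).card) = |v| * β E.card * ∑ w ∈ X.filter
        (fun w => F w = v ∧ Sl w = E ∧ len w - s * (Oc w).card = u),
        x ^ len w * (fun _ => (1 : ℝ)) (len w) := by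
    rw [mul_sum]
    refine sum_congr rfl fun w hw => ?_
    rw [(mem_filter.1 hw).2.1, (mem_filter.1 hw).2.2.1]
    ring
  rw [g1, g2, g4, f1, f2, f3]
  have g3 : ∑ j ∈ range (E.card + 1), (E.card.choose j : ℝ) * (x ^ s) ^ j * (1 : ℝ) =
      (1 + x ^ s) ^ E.card := by
    rw [add_comm 1 (x ^ s), add_pow]
    refine sum_congr rfl fun j _ => ?_
    rw [one_pow]
    ring
  rw [g3, abs_mul, abs_mul, abs_of_nonneg (show (0 : ℝ) ≤
    (((K u).filter (fun w => F w = v ∧ Sl w = E ∧ (Oc w).card = 0)).card : ℝ) * x ^ u by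
      positivity)]
  have h1 := hβ E.card u
  have h2 : 0 ≤ |v| * ((((K u).filter
    (fun w => F w = v ∧ Sl w = E ∧ (Oc w).card = 0)).card : ℝ) * x ^ u) := by positivity
  have h3 := mul_le_mul_of_nonneg_left h1 h2
  refine le_trans (le_of_eq ?_) (h3.trans (le_of_eq ?_)) <;> ring

end

open Pool.Agent.H976R2 Pool.Agent.H976R2.Lip Pool.Agent.H924P Pool.Agent.H739K
open Pool.Agent.R54.AS Pool.Agent.N949.AL

/-- averages over the polygons: comparison -/
theorem words_cmp : ∃ κ : ℕ, 1 ≤ κ ∧ ∀ (n : ℕ), 3 ≤ n → ∀ (V : Finset P2) (F : List Dir → ℝ),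
    (∀ w ∈ KP n, |F w| ≤ 1) →
    (∀ w ∈ KP n, ∀ i ∈ fc w, Av V (lab w i) → F (sw w i) = F w) →
    ∀ (ψ χ β : ℕ → ℝ) (b B ω : ℝ),
    (∀ m u : ℕ, |∑ j ∈ range (m + 1), (m.choose j : ℝ) * ψ (u + j)| ≤
      ∑ j ∈ range (m + 1), (m.choose j : ℝ) * χ (u + j) + β m * 2 ^ m) →
    (∀ m, 0 ≤ β m ∧ β m ≤ B) → 0 ≤ b → (∀ m : ℕ, ω ≤ κ * m → β m ≤ b) →
    |∑ w ∈ KP n, F w * ψ (ar w)| ≤ ∑ w ∈ KP n, |F w| * χ (ar w) + (b * ∑ w ∈ KP n, |F w| +
      B * (2 * (((KP n).filter (fun w => ((fc w).card : ℝ) < ω + 25 * V.card)).card : ℝ) +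
        Real.exp (-(ω / κ)) * ((KP n).card : ℝ))) := by
  obtain ⟨κ, hκ, h⟩ := select
  refine ⟨κ, hκ, ?_⟩
  intro n hn V F hF1 hF2 ψ χ β b B ω hψ hβ hb hβb
  obtain ⟨L, hL, hLV, hsel⟩ := h (KP n) V
  have hκ0 : (0 : ℝ) < κ := by exact_mod_cast hκ
  have hB0 : 0 ≤ B := (hβ 0).1.trans (hβ 0).2
  have hTS := tsp hn hL
  have hInv : Inv (KA n) (Slw L) (Ocw L) fl F := by
    intro a w hw q hq hq'
    rw [mem_KA] at hw
    rw [mem_Slw] at hq
    obtain ⟨hqL, i, hi, rfl⟩ := hq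
    rw [fl_eq (Fin.mem_KP.mp hw.1).2.1 hi]
    exact hF2 w hw.1 i hi (hLV _ hqL)
  obtain ⟨N', hN'⟩ : ∃ N', N' = (KP n).sup ar + 1 := ⟨_, rfl⟩
  have hbig : ∀ w ∈ KP n, ar w < N' := by
    intro w hw
    rw [hN']
    exact Nat.lt_succ_of_le (Finset.le_sup (f := ar) hw)
  have hK : ∀ a, N' ≤ a → KA n a = ∅ := by
    intro a ha
    rw [Finset.eq_empty_iff_forall_notMem]
    intro w hw
    rw [mem_KA] at hw
    have := hbig w hw.1
    omega
  have hlen : ∀ a, ∀ w ∈ KA n a, ar w = a := fun a w hw => (mem_KA.1 hw).2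
  have hX : @Finset.biUnion _ _ (fun a b => Classical.propDecidable (a = b)) (range N') (KA n) =
      KP n := by
    ext w
    rw [@Finset.mem_biUnion _ _ _ _ (fun a b => Classical.propDecidable (a = b))]
    constructor
    · rintro ⟨a, -, hw⟩
      exact (mem_KA.1 hw).1
    · intro hw
      exact ⟨ar w, mem_range.2 (hbig w hw), mem_KA.2 ⟨hw, rfl⟩⟩
  have hcl := class_cmp hTS ar hlen hK hInv one_pos ψ χ β (fun m u => by
    simp only [one_pow, mul_one, one_mul]
    have h1 := hψ m u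
    norm_num
    exact h1)
  have f1 := Pool.Agent.N949.AO.flat ar hlen N' 1 (fun a w => F w * ψ a)
  have f2 := Pool.Agent.N949.AO.flat ar hlen N' 1 (fun _ w => |F w| * β (Slw L w).card)
  have f3 := Pool.Agent.N949.AO.flat ar hlen N' 1 (fun a w => |F w| * χ a)
  rw [f1, f2, f3, hX] at hcl
  simp only [one_pow, one_mul] at hcl
  refine hcl.trans (add_le_add le_rfl ?_)
  -- pointwise bound
  obtain ⟨b1, hb1⟩ : ∃ b1 : List Dir → ℝ, b1 = fun w =>
    if κ * (Slw L w).card < (Pw V w).card then (1 : ℝ) else 0 := ⟨_, rfl⟩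
  obtain ⟨b2, hb2⟩ : ∃ b2 : List Dir → ℝ, b2 = fun w =>
    if ((fc w).card : ℝ) < ω + 25 * V.card then (1 : ℝ) else 0 := ⟨_, rfl⟩
  have hb10 : ∀ w, 0 ≤ b1 w := by
    intro w
    rw [hb1]
    dsimp only
    split_ifs <;> norm_num
  have hb20 : ∀ w, 0 ≤ b2 w := by
    intro w
    rw [hb2]
    dsimp only
    split_ifs <;> norm_num
  have hkey : ∀ w ∈ KP n, ¬ ((fc w).card : ℝ) < ω + 25 * V.card → ω ≤ (Pw V w).card := by
    intro w hw h0
    have h3 : ((fc w).card : ℝ) ≤ (Pw V w).card + 25 * V.card := by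
      exact_mod_cast Pw_card (Fin.mem_KP.mp hw).2.1 V
    linarith [not_lt.1 h0]
  have hpt : ∀ w ∈ KP n, |F w| * β (Slw L w).card ≤ |F w| * b + B * (b2 w + b1 w) := by
    intro w hw
    have hF0 := abs_nonneg (F w)
    have hF1' := hF1 w hw
    have h1 : |F w| * β (Slw L w).card ≤ B := by
      calc |F w| * β (Slw L w).card ≤ 1 * B :=
            mul_le_mul hF1' (hβ _).2 (hβ _).1 zero_le_one
        _ = B := one_mul _
    have h2 : 0 ≤ |F w| * b := mul_nonneg hF0 hb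
    by_cases c1 : κ * (Slw L w).card < (Pw V w).card
    · have h3 : b1 w = 1 := by rw [hb1]; exact if_pos c1
      rw [h3]
      have h4 := mul_nonneg hB0 (hb20 w)
      rw [mul_add, mul_one]
      linarith
    · by_cases c2 : ((fc w).card : ℝ) < ω + 25 * V.card
      · have h3 : b2 w = 1 := by rw [hb2]; exact if_pos c2
        rw [h3]
        have h4 := mul_nonneg hB0 (hb10 w)
        rw [mul_add, mul_one]
        linarith
      · have h3 := hkey w hw c2
        have h4 : ((Pw V w).card : ℝ) ≤ κ * (Slw L w).card := by exact_mod_cast not_lt.1 c1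
        have h5 := hβb (Slw L w).card (h3.trans h4)
        have h6 := mul_le_mul_of_nonneg_left h5 hF0
        have h7 : 0 ≤ B * (b2 w + b1 w) := mul_nonneg hB0 (add_nonneg (hb20 w) (hb10 w))
        linarith
  have hb2s : ∑ w ∈ KP n, b2 w =
      (((KP n).filter (fun w => ((fc w).card : ℝ) < ω + 25 * V.card)).card : ℝ) := by
    rw [hb2, ← Finset.sum_filter, sum_const, nsmul_one]
  have hb1s : ∑ w ∈ KP n, b1 w ≤
      (((KP n).filter (fun w => ((fc w).card : ℝ) < ω + 25 * V.card)).card : ℝ) +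
        Real.exp (-(ω / κ)) * ((KP n).card : ℝ) := by
    have h1 : ∑ w ∈ KP n, b1 w =
        (((KP n).filter (fun w => κ * (Slw L w).card < (Pw V w).card)).card : ℝ) := by
      rw [hb1, ← Finset.sum_filter, sum_const, nsmul_one]
    rw [h1, ← hb2s]
    refine hsel.trans ?_
    have h2 : Real.exp (-(ω / κ)) * ((KP n).card : ℝ) = ∑ _w ∈ KP n, Real.exp (-(ω / κ)) := by
      rw [sum_const, nsmul_eq_mul, mul_comm]
    rw [h2, ← sum_add_distrib]
    refine sum_le_sum fun w hw => ?_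
    by_cases c2 : ((fc w).card : ℝ) < ω + 25 * V.card
    · have h3 : b2 w = 1 := by rw [hb2]; exact if_pos c2
      rw [h3]
      have h4 : Real.exp (-(((Pw V w).card : ℝ) / κ)) ≤ 1 := by
        rw [Real.exp_le_one_iff]
        have : 0 ≤ ((Pw V w).card : ℝ) / κ := by positivity
        linarith
      have h5 := (Real.exp_pos (-(ω / κ))).le
      linarith
    · have h3 := hkey w hw c2
      have h4 : Real.exp (-(((Pw V w).card : ℝ) / κ)) ≤ Real.exp (-(ω / κ)) :=
        Real.exp_le_exp.2 (neg_le_neg (div_le_div_of_nonneg_right h3 hκ0.le))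
      linarith [hb20 w]
  have hsum : ∑ w ∈ KP n, |F w| * β (Slw L w).card ≤
      b * ∑ w ∈ KP n, |F w| + B * (∑ w ∈ KP n, b2 w + ∑ w ∈ KP n, b1 w) := by
    rw [mul_sum, ← sum_add_distrib, mul_sum, ← sum_add_distrib]
    refine sum_le_sum fun w hw => ?_
    rw [mul_comm b]
    exact hpt w hw
  refine hsum.trans ?_
  have h9 := mul_le_mul_of_nonneg_left hb1s hB0
  rw [hb2s]
  linarith

end Pool.Agent.U954.AG
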