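import Pool.Agent.U954.AG.Bn
import Pool.Agent.U954.AG.Cm
import Pool.Agent.N949.AL.Fin
import Pool.Agent.U954.TA.Lg

/-!
# The area law of self-avoiding polygons: differences of the logarithms
-/

set_option autoImplicit false
set_option linter.unusedVariables false

namespace Pool.Agent.U954.AG

open Finset Pool.Agent.H976R2 Pool.Agent.H976R2.Lip Pool.Agent.H924P Pool.Agent.H739K
open Pool.Agent.R54.AS Pool.Agent.N949.AL
open Pool.Agent.N929.EZ (Df)
open scoped Classical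

noncomputable section

/-- the general estimate, with a comparison function -/
theorem coreC : ∃ (κ : ℕ) (C₀ c : ℝ), 1 ≤ κ ∧ 0 < C₀ ∧ 0 < c ∧ ∀ N : ℕ, 2 ≤ N →
    ∀ (V : Finset P2) (F : (ZMod (2 * N) → ℤ × ℤ) → ℝ), 2500 * V.card ≤ N →
    (∀ f, IsLoop (2 * N) f → |F f| ≤ 1) → Unch N V F →
    ∀ (ψ χ β : ℕ → ℝ) (b B : ℝ),
    (∀ m u : ℕ, |∑ j ∈ range (m + 1), (m.choose j : ℝ) * ψ (u + j)| ≤
      ∑ j ∈ range (m + 1), (m.choose j : ℝ) * χ (u + j) + β m * 2 ^ m) →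
    (∀ m, 0 ≤ β m ∧ β m ≤ B) → 0 ≤ b → (∀ m : ℕ, (N : ℝ) ≤ 100 * κ * m → β m ≤ b) →
    |me N (fun f => F f * ψ (area (2 * N) f))| ≤ me N (fun f => |F f| * χ (area (2 * N) f)) +
      (b * me N (fun f => |F f|) + B * (C₀ * Real.exp (-(c * N)))) := by
  obtain ⟨κ, hκ, hmain⟩ := words_cmp
  obtain ⟨C1, c1, hC1, hc1, hfew⟩ := Fin.few_exp
  have hκ0 : (0 : ℝ) < κ := by exact_mod_cast hκ
  obtain ⟨c, hc⟩ : ∃ c : ℝ, c = min c1 (1 / (100 * κ)) := ⟨_, rfl⟩
  have hcpos : 0 < c := by rw [hc]; exact lt_min hc1 (by positivity)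
  refine ⟨κ, 2 * C1 + 1, c, hκ, by positivity, hcpos, ?_⟩
  intro N hN V F hV hF hU ψ χ β b B hψ hβ hb hβb
  have hNr : (2 : ℝ) ≤ N := by exact_mod_cast hN
  have hB0 : 0 ≤ B := (hβ 0).1.trans (hβ 0).2
  obtain ⟨n, hn⟩ : ∃ n, n = 2 * N - 1 := ⟨_, rfl⟩
  have hn3 : 3 ≤ n := by omega
  have hnN : (N : ℝ) ≤ n := by exact_mod_cast (by omega : N ≤ n)
  have hcp : (0 : ℝ) < ((KP (2 * N - 1)).card : ℝ) := Fin.card_pos hN
  rw [← hn] at hcp
  have hm := hmain n hn3 V (fun w => F (lp (2 * N) w)) (fun w hw => by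
      rw [hn] at hw
      exact hF _ ((CONV_proof N hN).2.2 w hw)) (fun w hw i hi hA => by
      rw [hn] at hw
      exact loop_flip hN hU hw hi hA) ψ χ β b B (n / 100) hψ hβ hb (fun m hm => hβb m (by
        have : (n : ℝ) ≤ 100 * (κ * m) := by linarith
        linarith))
  -- the error term
  have e1 : (((KP n).filter (fun w => ((fc w).card : ℝ) < (n : ℝ) / 100 + 25 * V.card)).card : ℝ) ≤
      C1 * Real.exp (-(c * N)) * ((KP n).card : ℝ) := by
    have h1 : (((KP n).filter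
        (fun w => ((fc w).card : ℝ) < (n : ℝ) / 100 + 25 * V.card)).card : ℝ) ≤
        ((fewc n).card : ℝ) := by
      rw [Nat.cast_le]
      refine Finset.card_le_card fun w hw => ?_
      rw [mem_filter] at hw
      unfold fewc
      rw [mem_filter]
      refine ⟨(mem_filter.mp hw.1).1, ?_⟩
      have h2 : (2500 : ℝ) * V.card ≤ N := by exact_mod_cast hV
      have h3 := hw.2
      linarith
    refine h1.trans ((hfew n hn3 (by omega)).trans ?_)
    refine mul_le_mul_of_nonneg_right (mul_le_mul_of_nonneg_left ?_ hC1.le) hcp.le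
    refine Real.exp_le_exp.2 (neg_le_neg ?_)
    exact mul_le_mul (by rw [hc]; exact min_le_left _ _) hnN (by positivity) hc1.le
  have e2 : Real.exp (-((n : ℝ) / 100 / κ)) ≤ Real.exp (-(c * N)) := by
    refine Real.exp_le_exp.2 (neg_le_neg ?_)
    have h1 : (n : ℝ) / 100 / κ = 1 / (100 * κ) * n := by
      field_simp
    rw [h1]
    exact mul_le_mul (by rw [hc]; exact min_le_right _ _) hnN (by positivity) (by positivity)
  have e3 : 2 * (((KP n).filter
      (fun w => ((fc w).card : ℝ) < (n : ℝ) / 100 + 25 * V.card)).card : ℝ) +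
      Real.exp (-((n : ℝ) / 100 / κ)) * ((KP n).card : ℝ) ≤
      (2 * C1 + 1) * Real.exp (-(c * N)) * ((KP n).card : ℝ) := by
    have h1 := mul_le_mul_of_nonneg_right e2 hcp.le
    linarith
  have e4 := mul_le_mul_of_nonneg_left e3 hB0
  have g1 : ∀ (ψ : ℕ → ℝ), me N (fun f => F f * ψ (area (2 * N) f)) =
      (∑ w ∈ KP n, F (lp (2 * N) w) * ψ (ar w)) / ((KP n).card : ℝ) := by
    intro ψ
    rw [F4x.me_eq CONV_proof hN, ← hn]
    congr 1
    refine sum_congr rfl fun w hw => ?_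
    rw [hn] at hw
    rw [F4x.ar_eq hN hw]
  have g3 : me N (fun f => |F f| * χ (area (2 * N) f)) =
      (∑ w ∈ KP n, |F (lp (2 * N) w)| * χ (ar w)) / ((KP n).card : ℝ) := by
    rw [F4x.me_eq CONV_proof hN, ← hn]
    congr 1
    refine sum_congr rfl fun w hw => ?_
    rw [hn] at hw
    rw [F4x.ar_eq hN hw]
  have g2 : me N (fun f => |F f|) = (∑ w ∈ KP n, |F (lp (2 * N) w)|) / ((KP n).card : ℝ) := by
    rw [F4x.me_eq CONV_proof hN, ← hn]
  rw [g1, g2, g3, abs_div, abs_of_pos hcp, div_le_iff₀ hcp, add_mul, add_mul, mul_assoc b,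
    div_mul_cancel₀ _ hcp.ne', div_mul_cancel₀ _ hcp.ne']
  refine hm.trans ?_
  linarith

/-- the weight of the area `a` -/
def Wa (N : ℕ) (F : (ZMod (2 * N) → ℤ × ℤ) → ℝ) (a : ℕ) : ℝ :=
  me N (fun f => F f * (if area (2 * N) f = a then 1 else 0))

theorem Df_Wa {N : ℕ} (hN : 2 ≤ N) (F : (ZMod (2 * N) → ℤ × ℤ) → ℝ) (a s j : ℕ) :
    Df s (fun h => Wa N F (a + h)) j =
      me N (fun f => F f * dl s (a + j) (area (2 * N) f)) := by
  unfold Df Wa
  simp only [F4x.me_eq CONV_proof hN]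
  simp_rw [← mul_div_assoc]
  rw [← sum_div]
  congr 1
  simp_rw [mul_sum]
  rw [sum_comm]
  refine sum_congr rfl fun w _ => ?_
  unfold dl
  rw [mul_sum]
  refine sum_congr rfl fun i _ => ?_
  rw [show a + (j + i) = a + j + i by omega]
  ring

theorem me_abs_le {N : ℕ} (hN : 2 ≤ N) (F : (ZMod (2 * N) → ℤ × ℤ) → ℝ)
    (hF : ∀ f, IsLoop (2 * N) f → |F f| ≤ 1) : me N (fun f => |F f|) ≤ 1 := by
  rw [F4x.me_eq CONV_proof hN, div_le_one (Fin.card_pos hN)]
  calc _ ≤ ∑ w ∈ KP (2 * N - 1), (1 : ℝ) :=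
        sum_le_sum fun w hw => hF _ ((CONV_proof N hN).2.2 w hw)
    _ = _ := by rw [sum_const, nsmul_eq_mul, mul_one]

/-- the differences with error terms -/
theorem dif_err (r : ℕ) : ∃ A C : ℝ, 0 < A ∧ 0 < C ∧ ∀ N : ℕ, 2 ≤ N →
    ∀ (V : Finset P2) (F : (ZMod (2 * N) → ℤ × ℤ) → ℝ), 2500 * V.card ≤ N →
    (∀ f, IsLoop (2 * N) f → 0 ≤ F f ∧ F f ≤ 1) → Unch N V F → ∀ (a j : ℕ) (ε : ℝ), 0 < ε →
    ε ≤ 1 →
    |Df r (fun h => Wa N F (a + h)) j| ≤
      C * (ε ^ r * Wa N F (a + j) + Real.exp (-(ε ^ 2 * N / A)) * 1) := by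
  obtain ⟨κ, C₀, c, hκ, hC₀, hc, hcore⟩ := coreC
  obtain ⟨A1, C1, hA1, hC1, hb⟩ := bin_cmp r
  have hκ0 : (0 : ℝ) < κ := by exact_mod_cast hκ
  refine ⟨100 * κ * A1 + 1 / c, C1 + C1 + C1 * C₀, by positivity, by positivity,
    fun N hN V F hV hF hU a j ε hε hε1 => ?_⟩
  have hN0 : (0 : ℝ) ≤ N := Nat.cast_nonneg N
  have hFa : ∀ f, IsLoop (2 * N) f → |F f| ≤ 1 := fun f hf => by
    rw [abs_of_nonneg (hF f hf).1]
    exact (hF f hf).2
  have h1 := hcore N hN V F hV hFa hU (dl r (a + j))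
    (fun v => C1 * ε ^ r * (if v = a + j then (1 : ℝ) else 0))
    (fun m => C1 * Real.exp (-(ε ^ 2 * m / A1)))
    (C1 * Real.exp (-(ε ^ 2 * N / (100 * κ * A1 + 1 / c)))) C1
    (fun m u => by
      refine (hb m u (a + j) ε hε hε1).trans (le_of_eq ?_)
      congr 1
      rw [mul_sum, mul_sum]
      refine sum_congr rfl fun i _ => ?_
      ring)
    (fun m => ⟨by positivity, by
      have : Real.exp (-(ε ^ 2 * m / A1)) ≤ 1 := by
        rw [Real.exp_le_one_iff]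
        have : 0 ≤ ε ^ 2 * (m : ℝ) / A1 := by positivity
        linarith
      exact mul_le_of_le_one_right hC1.le this⟩)
    (by positivity)
    (fun m hm => by
      refine mul_le_mul_of_nonneg_left (Real.exp_le_exp.mpr (neg_le_neg ?_)) hC1.le
      rw [div_le_div_iff₀ (by positivity) hA1]
      have h3 : ε ^ 2 * N * A1 ≤ ε ^ 2 * (100 * κ * m) * A1 := by gcongr
      have h4 : 0 ≤ ε ^ 2 * (m : ℝ) * (1 / c) := by positivity
      linarith)
  rw [Df_Wa hN]
  refine h1.trans ?_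
  have e1 : me N (fun f => |F f| * (C1 * ε ^ r * (if area (2 * N) f = a + j then (1 : ℝ) else 0)))
      = C1 * ε ^ r * Wa N F (a + j) := by
    unfold Wa
    rw [F4x.me_eq CONV_proof hN, F4x.me_eq CONV_proof hN, mul_div_assoc', mul_sum]
    congr 1
    refine sum_congr rfl fun w hw => ?_
    rw [abs_of_nonneg (hF _ ((CONV_proof N hN).2.2 w hw)).1]
    ring
  rw [e1]
  have hW : 0 ≤ Wa N F (a + j) := by
    unfold Wa
    rw [F4x.me_eq CONV_proof hN]
    refine div_nonneg (sum_nonneg fun w hw => ?_) (Nat.cast_nonneg _)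
    refine mul_nonneg (hF _ ((CONV_proof N hN).2.2 w hw)).1 ?_
    split_ifs <;> norm_num
  obtain ⟨e, he⟩ : ∃ e : ℝ, e = Real.exp (-(ε ^ 2 * N / (100 * κ * A1 + 1 / c))) := ⟨_, rfl⟩
  have he0 : 0 < e := by rw [he]; exact Real.exp_pos _
  rw [← he]
  have h5 : Real.exp (-(c * N)) ≤ e := by
    rw [he]
    refine Real.exp_le_exp.mpr (neg_le_neg ?_)
    rw [div_le_iff₀ (by positivity)]
    have h6 : ε ^ 2 * N ≤ 1 * N := mul_le_mul_of_nonneg_right (pow_le_one₀ hε.le hε1) hN0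
    have h7 : c * N * (1 / c) = N := by field_simp
    have h8 : 0 ≤ c * N * (100 * κ * A1) := by positivity
    rw [mul_add]
    linarith
  have h9 := me_abs_le hN F hFa
  have h10 : C1 * e * me N (fun f => |F f|) ≤ C1 * e := mul_le_of_le_one_right (by positivity) h9
  have h11 : C1 * (C₀ * Real.exp (-(c * N))) ≤ C1 * (C₀ * e) := by gcongr
  have h12 : 0 ≤ (C1 + C1 * C₀) * (ε ^ r * Wa N F (a + j)) := by positivity
  have h13 : 0 ≤ C1 * e := by positivity
  have e2 : (C1 + C1 + C1 * C₀) * (ε ^ r * Wa N F (a + j) + e * 1) =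
      C1 * ε ^ r * Wa N F (a + j) + (C1 + C1 * C₀) * (ε ^ r * Wa N F (a + j)) +
        (C1 * e + C1 * e + C1 * (C₀ * e)) := by ring
  rw [e2]
  linarith

/-- the differences of the logarithms -/
theorem log_all (r : ℕ) (hr : 1 ≤ r) : ∃ C : ℝ, 1 ≤ C ∧ ∀ N : ℕ, 2 ≤ N →
    ∀ (V : Finset P2) (F : (ZMod (2 * N) → ℤ × ℤ) → ℝ), C * V.card ≤ N →
    (∀ f, IsLoop (2 * N) f → 0 ≤ F f ∧ F f ≤ 1) → Unch N V F → ∀ (a : ℕ) (L : ℝ),
    Real.log N ≤ L → C * L ≤ N → Real.exp (-L) ≤ Wa N F a →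
    (∀ i, i ≤ r → 0 < Wa N F (a + i)) ∧
    |∑ i ∈ range (r + 1), (-1 : ℝ) ^ i * (r.choose i : ℝ) * Real.log (Wa N F (a + i))| ≤
      C * Real.sqrt (L / N) ^ r := by
  choose A1 C1 hA1 hC1 hde using dif_err
  obtain ⟨A0, hA0⟩ : ∃ A0 : ℝ, A0 = ∑ s ∈ range (r + 1), A1 s := ⟨_, rfl⟩
  obtain ⟨C0, hC0⟩ : ∃ C0 : ℝ, C0 = ∑ s ∈ range (r + 1), C1 s := ⟨_, rfl⟩
  have hA0s : ∀ s, s ≤ r → A1 s ≤ A0 := fun s hs => by
    rw [hA0]
    exact single_le_sum (f := A1) (fun t _ => (hA1 t).le) (mem_range.mpr (by omega))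
  have hC0s : ∀ s, s ≤ r → C1 s ≤ C0 := fun s hs => by
    rw [hC0]
    exact single_le_sum (f := C1) (fun t _ => (hC1 t).le) (mem_range.mpr (by omega))
  have hA00 : 0 < A0 := lt_of_lt_of_le (hA1 0) (hA0s 0 (by omega))
  have hC00 : 0 < C0 := lt_of_lt_of_le (hC1 0) (hC0s 0 (by omega))
  obtain ⟨A, C, hA, hC, h⟩ := Pool.Agent.U954.TA.to_log r hr A0 C0 hA00 hC00
  refine ⟨2500 + 2 * A + C * (Real.sqrt 2) ^ r, by
    have : 0 ≤ C * (Real.sqrt 2) ^ r := by positivity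
    linarith, fun N hN V F hV hF hU a L hL hCL hp => ?_⟩
  have hN' : (2 : ℝ) ≤ N := by exact_mod_cast hN
  have hlog0 : (0.69 : ℝ) ≤ Real.log N := by
    have h1 : Real.log 2 ≤ Real.log N := Real.log_le_log (by norm_num) hN'
    have := Real.log_two_gt_d9
    linarith
  have hL0 : 0 < L := by linarith
  have hN0 : (0 : ℝ) < N := by linarith
  have hCs : 0 ≤ C * (Real.sqrt 2) ^ r := by positivity
  have hV' : 2500 * V.card ≤ N := by
    have hv : (0 : ℝ) ≤ (V.card : ℝ) := Nat.cast_nonneg _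
    have h1 : (2500 : ℝ) * V.card ≤ (2500 + 2 * A + C * (Real.sqrt 2) ^ r) * V.card :=
      mul_le_mul_of_nonneg_right (by linarith) hv
    exact_mod_cast h1.trans hV
  have hf0 : 0 < Wa N F a := lt_of_lt_of_le (Real.exp_pos _) hp
  have hkey := h (fun h => Wa N F (a + h)) N 1 (2 * L) (by linarith) hN0
    (by
      rw [← Real.exp_log hN0]
      exact Real.exp_le_exp.mpr (by linarith)) zero_le_one
    (by simpa using hf0)
    (by
      simp only [Nat.add_zero]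
      have h1 : 1 ≤ Real.exp L * Wa N F a := by
        have h2 : Real.exp L * Real.exp (-L) = 1 := by rw [← Real.exp_add, add_neg_cancel,
          Real.exp_zero]
        rw [← h2]
        exact mul_le_mul_of_nonneg_left hp (Real.exp_pos _).le
      refine h1.trans (mul_le_mul_of_nonneg_right (Real.exp_le_exp.mpr (by linarith)) hf0.le))
    (by
      have h1 : 2 * A * L ≤ (2500 + 2 * A + C * (Real.sqrt 2) ^ r) * L :=
        mul_le_mul_of_nonneg_right (by linarith) hL0.le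
      linarith)
    (by
      intro s j ε hsj hε hε1
      refine (hde s N hN V F hV' hF hU a j ε hε hε1).trans ?_
      have hW : 0 ≤ Wa N F (a + j) := by
        unfold Wa
        rw [F4x.me_eq CONV_proof hN]
        refine div_nonneg (sum_nonneg fun w hw => ?_) (Nat.cast_nonneg _)
        refine mul_nonneg (hF _ ((CONV_proof N hN).2.2 w hw)).1 ?_
        split_ifs <;> norm_num
      have h1 : Real.exp (-(ε ^ 2 * N / A1 s)) ≤ Real.exp (-(ε ^ 2 * N / A0)) := by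
        refine Real.exp_le_exp.mpr (neg_le_neg ?_)
        exact div_le_div_of_nonneg_left (by positivity) (hA1 s) (hA0s s (by omega))
      refine mul_le_mul (hC0s s (by omega)) ?_ (by positivity) hC00.le
      exact add_le_add le_rfl (mul_le_mul_of_nonneg_right h1 zero_le_one))
  obtain ⟨k1, k2⟩ := hkey
  refine ⟨fun i hi => ?_, ?_⟩
  · have := (k1 i hi).1
    simp only [Nat.add_zero] at this
    linarith
  · have e1 : Df r (fun j => Real.log (Wa N F (a + j))) 0 =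
        ∑ i ∈ range (r + 1), (-1 : ℝ) ^ i * (r.choose i : ℝ) * Real.log (Wa N F (a + i)) := by
      unfold Df
      refine sum_congr rfl fun i _ => ?_
      rw [Nat.zero_add]
    rw [e1] at k2
    refine k2.trans ?_
    have e2 : 2 * L / N = 2 * (L / N) := by ring
    rw [e2, Real.sqrt_mul (by norm_num), mul_pow, ← mul_assoc]
    refine mul_le_mul_of_nonneg_right ?_ (by positivity)
    linarith

end

end Pool.Agent.U954.AG
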